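import Mathlib
import Pool.Agent.N546.PN.Stm

/-!
# Project PN, part PUSH: the restrictions to a line are spread evenly enough
-/

set_option autoImplicit false

open Finset
open Pool.Agent.N546.PN

namespace Pool.Agent.N38.PN

theorem card_Icc_ (H : ℕ) : (Icc (-(H : ℤ)) H).card = 2 * H + 1 := by
  rw [Int.card_Icc]
  omega

theorem card_bx {ι : Type} [Fintype ι] [DecidableEq ι] (n : ℕ) (e : ι → ℕ) (H : ℕ) :
    (bx n e H).card = (2 * H + 1) ^ sz n e := by
  unfold bx sz
  rw [Fintype.card_piFinset, ← Finset.prod_pow_eq_pow_sum]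
  refine Finset.prod_congr rfl fun k _ => ?_
  rw [Fintype.card_piFinset, Finset.prod_const, card_Icc_, Finset.card_univ]

theorem card_bx1 {ι : Type} [Fintype ι] [DecidableEq ι] (e : ι → ℕ) (H : ℕ) :
    (bx1 e H).card = (2 * H + 1) ^ sz1 e := by
  unfold bx1 sz1
  rw [Fintype.card_piFinset, ← Finset.prod_pow_eq_pow_sum]
  refine Finset.prod_congr rfl fun k _ => ?_
  rw [Fintype.card_piFinset, Finset.prod_const, card_Icc_, Finset.card_univ, Fintype.card_fin]

/-- the monomial `X_{i₀}^(D - j) X_{i₁}^j` -/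
def mon {n : ℕ} (D : ℕ) (i₀ i₁ : Fin (n + 1)) (h : i₀ ≠ i₁) (j : Fin (D + 1)) : Mon n D :=
  ⟨fun i => if i = i₀ then D - (j : ℕ) else if i = i₁ then (j : ℕ) else 0, by
    rw [Finset.mem_piAntidiag]
    refine ⟨?_, fun i _ => Finset.mem_univ i⟩
    rw [Fintype.sum_eq_add i₀ i₁ h (fun x hx => by rw [if_neg hx.1, if_neg hx.2]), if_pos rfl,
      if_neg h.symm, if_pos rfl]
    have := j.2
    omega⟩

theorem mon_i₁ {n : ℕ} (D : ℕ) (i₀ i₁ : Fin (n + 1)) (h : i₀ ≠ i₁) (j : Fin (D + 1)) :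
    (mon D i₀ i₁ h j).1 i₁ = j := by
  show (if i₁ = i₀ then D - (j : ℕ) else if i₁ = i₁ then (j : ℕ) else 0) = j
  rw [if_neg h.symm, if_pos rfl]

theorem mon_inj {n : ℕ} (D : ℕ) (i₀ i₁ : Fin (n + 1)) (h : i₀ ≠ i₁) :
    Function.Injective (mon D i₀ i₁ h) := by
  intro j j' hj
  have h1 := mon_i₁ D i₀ i₁ h j
  rw [hj, mon_i₁] at h1
  exact (Fin.ext h1).symm

theorem prod_ne {n : ℕ} (D : ℕ) (b : Fin (n + 1) → ℤ) (i₀ i₁ : Fin (n + 1)) (h : i₀ ≠ i₁)
    (hb : b i₀ ≠ 0) (j : Fin (D + 1)) :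
    ∏ i, b i ^ ((mon D i₀ i₁ h j).1 i - if i = i₁ then (j : ℕ) else 0) ≠ 0 := by
  rw [Finset.prod_ne_zero_iff]
  intro i _
  by_cases hi : i = i₁
  · subst hi
    rw [mon_i₁, if_pos rfl, Nat.sub_self, pow_zero]
    exact one_ne_zero
  · by_cases hi0 : i = i₀
    · subst hi0
      exact pow_ne_zero _ hb
    · have : (mon D i₀ i₁ h j).1 i = 0 := by
        show (if i = i₀ then D - (j : ℕ) else if i = i₁ then (j : ℕ) else 0) = 0
        rw [if_neg hi0, if_neg hi]
      rw [this, Nat.zero_sub, pow_zero]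
      exact one_ne_zero

/-- triangularity -/
theorem tri {n e : ℕ} (b : Fin (n + 1) → ℤ) (i₀ i₁ : Fin (n + 1)) (h : i₀ ≠ i₁) (hb : b i₀ ≠ 0)
    (u : Mon n (e + 1) → ℤ) (hu : ∀ m, (¬ ∃ j, mon (e + 1) i₀ i₁ h j = m) → u m = 0)
    (hl : ∀ j, line b i₁ u j = 0) : ∀ m, u m = 0 := by
  have key : ∀ t : ℕ, ∀ j : Fin (e + 2), e + 1 - (j : ℕ) = t → u (mon (e + 1) i₀ i₁ h j) = 0 := by
    intro t
    induction t using Nat.strong_induction_on with
    | _ t ih =>
      intro j hj
      have h1 := hl j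
      unfold line at h1
      rw [Finset.sum_eq_single (mon (e + 1) i₀ i₁ h j)] at h1
      · rw [mon_i₁, Nat.choose_self] at h1
        rcases mul_eq_zero.1 h1 with h2 | h2
        · exact h2
        · exfalso
          rw [Nat.cast_one, one_mul] at h2
          exact prod_ne (e + 1) b i₀ i₁ h hb j h2
      · intro m _ hm
        by_cases hr : ∃ l, mon (e + 1) i₀ i₁ h l = m
        · obtain ⟨l, rfl⟩ := hr
          have hlj : l ≠ j := fun hh => hm (by rw [hh])
          rcases lt_or_gt_of_ne (fun hh => hlj (Fin.ext hh) : (l : ℕ) ≠ j) with hlt | hgt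
          · rw [mon_i₁, Nat.choose_eq_zero_of_lt hlt]
            simp
          · rw [ih (e + 1 - (l : ℕ)) (by have := l.2; omega) l rfl, zero_mul]
        · rw [hu m hr, zero_mul]
      · intro hn
        exact absurd (Finset.mem_univ _) hn
  intro m
  by_cases hr : ∃ l, mon (e + 1) i₀ i₁ h l = m
  · obtain ⟨l, rfl⟩ := hr
    exact key _ l rfl
  · exact hu m hr

theorem line_sub {n e : ℕ} (b : Fin (n + 1) → ℤ) (i₁ : Fin (n + 1)) (c c' : Mon n (e + 1) → ℤ)
    (j : Fin (e + 2)) : line b i₁ (fun m => c m - c' m) j = line b i₁ c j - line b i₁ c' j := by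
  unfold line
  rw [← Finset.sum_sub_distrib]
  exact Finset.sum_congr rfl fun m _ => by ring

theorem push_ : S_PUSH := by
  classical
  intro n ι _ _ e b i₀ i₁ h hb
  set K : (k : ι) → Fin (e k + 2) → Mon n (e k + 1) → ℕ := fun k j m =>
    (((m.1 i₁).choose j : ℤ) * ∏ i, b i ^ (m.1 i - if i = i₁ then (j : ℕ) else 0)).natAbs with hK
  refine ⟨1 + ∑ k, ∑ j, ∑ m, K k j m, by omega, fun H Q => ?_⟩
  set C : ℕ := 1 + ∑ k, ∑ j, ∑ m, K k j m with hC
  have hKC : ∀ k j, ∑ m, K k j m ≤ C := by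
    intro k j
    have h1 : ∑ m, K k j m ≤ ∑ j, ∑ m, K k j m :=
      Finset.single_le_sum (f := fun j => ∑ m, K k j m) (fun _ _ => Nat.zero_le _)
        (Finset.mem_univ j)
    have h2 : ∑ j, ∑ m, K k j m ≤ ∑ k, ∑ j, ∑ m, K k j m :=
      Finset.single_le_sum (f := fun k => ∑ j, ∑ m, K k j m) (fun _ _ => Nat.zero_le _)
        (Finset.mem_univ k)
    omega
  rw [← card_bx1 e H, ← card_bx n e H, ← Finset.card_product, ← Finset.card_product]
  refine Finset.card_le_card_of_injOn
    (fun p => ((fun k => Function.extend (mon (e k + 1) i₀ i₁ h) (p.2 k) (p.1 k)),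
      fun k => line b i₁ (p.1 k))) ?_ ?_
  · rintro ⟨c, d⟩ hp
    rw [Finset.mem_coe, Finset.mem_product, Finset.mem_filter] at hp
    obtain ⟨⟨hc, hQ⟩, hd⟩ := hp
    have hc' : ∀ k m, c k m ∈ Icc (-(H : ℤ)) H := by
      intro k m
      have := hc
      unfold bx at this
      exact Fintype.mem_piFinset.1 (Fintype.mem_piFinset.1 this k) m
    have hd' : ∀ k j, d k j ∈ Icc (-(H : ℤ)) H := by
      intro k j
      have := hd
      unfold bx1 at this
      exact Fintype.mem_piFinset.1 (Fintype.mem_piFinset.1 this k) j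
    rw [Finset.mem_coe, Finset.mem_product, Finset.mem_filter]
    refine ⟨?_, ?_, hQ⟩
    · unfold bx
      refine Fintype.mem_piFinset.2 fun k => Fintype.mem_piFinset.2 fun m => ?_
      show Function.extend (mon (e k + 1) i₀ i₁ h) (d k) (c k) m ∈ _
      by_cases hr : ∃ l, mon (e k + 1) i₀ i₁ h l = m
      · obtain ⟨l, rfl⟩ := hr
        rw [(mon_inj _ i₀ i₁ h).extend_apply]
        exact hd' k l
      · rw [Function.extend_apply' _ _ _ hr]
        exact hc' k m
    · unfold bx1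
      refine Fintype.mem_piFinset.2 fun k => Fintype.mem_piFinset.2 fun j => ?_
      show line b i₁ (c k) j ∈ _
      rw [Finset.mem_Icc, ← abs_le]
      unfold line
      calc |∑ m, c k m * (((m.1 i₁).choose j : ℤ) *
              ∏ i, b i ^ (m.1 i - if i = i₁ then (j : ℕ) else 0))|
          ≤ ∑ m, |c k m * (((m.1 i₁).choose j : ℤ) *
              ∏ i, b i ^ (m.1 i - if i = i₁ then (j : ℕ) else 0))| :=
            Finset.abs_sum_le_sum_abs _ _
        _ ≤ ∑ m, (H : ℤ) * (K k j m : ℤ) := by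
            refine Finset.sum_le_sum fun m _ => ?_
            rw [abs_mul, hK]
            show _ ≤ (H : ℤ) * ((((m.1 i₁).choose j : ℤ) *
              ∏ i, b i ^ (m.1 i - if i = i₁ then (j : ℕ) else 0)).natAbs : ℤ)
            rw [Int.natCast_natAbs]
            exact mul_le_mul_of_nonneg_right (abs_le.2 (Finset.mem_Icc.1 (hc' k m)))
              (abs_nonneg _)
        _ = (H : ℤ) * ((∑ m, K k j m : ℕ) : ℤ) := by
            rw [← Finset.mul_sum]
            push_cast
            rfl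
        _ ≤ (H : ℤ) * (C : ℤ) :=
            mul_le_mul_of_nonneg_left (by exact_mod_cast hKC k j) (by positivity)
        _ = ((C * H : ℕ) : ℤ) := by
            push_cast
            ring
  · rintro ⟨c, d⟩ _ ⟨c', d'⟩ _ hp
    have hp1 : (fun k => Function.extend (mon (e k + 1) i₀ i₁ h) (d k) (c k)) =
        fun k => Function.extend (mon (e k + 1) i₀ i₁ h) (d' k) (c' k) := congrArg Prod.fst hp
    have hp2 : (fun k => line b i₁ (c k)) = fun k => line b i₁ (c' k) := congrArg Prod.snd hp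
    have hd : d = d' := by
      funext k j
      have h1 := congrFun (congrFun hp1 k) (mon (e k + 1) i₀ i₁ h j)
      have h2 : Function.extend (mon (e k + 1) i₀ i₁ h) (d k) (c k) (mon (e k + 1) i₀ i₁ h j) =
        Function.extend (mon (e k + 1) i₀ i₁ h) (d' k) (c' k) (mon (e k + 1) i₀ i₁ h j) := h1
      rwa [(mon_inj _ i₀ i₁ h).extend_apply, (mon_inj _ i₀ i₁ h).extend_apply] at h2
    have hcc : c = c' := by
      funext k m
      have h0 := tri b i₀ i₁ h hb (fun m => c k m - c' k m) ?_ ?_ m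
      · exact sub_eq_zero.1 h0
      · intro m hr
        have h1 : Function.extend (mon (e k + 1) i₀ i₁ h) (d k) (c k) m =
          Function.extend (mon (e k + 1) i₀ i₁ h) (d' k) (c' k) m := congrFun (congrFun hp1 k) m
        rw [Function.extend_apply' _ _ _ hr, Function.extend_apply' _ _ _ hr] at h1
        exact sub_eq_zero.2 h1
      · intro j
        rw [line_sub]
        exact sub_eq_zero.2 (congrFun (congrFun hp2 k) j)
    rw [hcc, hd]

end Pool.Agent.N38.PN
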